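import Pool.Agent.H80.LT1

open Pool.Agent.H80.LT

theorem Pool.Agent.Results.MP_23ff89_al.NotTriple.result :
    ∃ A B C : Module.End ℚ (Fin 3 → ℚ),
      LeonardPair A B ∧ LeonardPair A C ∧ LeonardPair B C ∧ ¬ LeonardTriple A B C :=
  ⟨_, _, _, pairwise_not_triple⟩
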